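import Mathlib

/-!
# Properties of K3 surfaces invariant under isogeny: minimal degrees are enough
-/

universe u

namespace Pool.Agent.TH116.K3

/-- K3 surfaces over an algebraically closed subfield of `ℂ`, up to isogeny. -/
structure Surfaces where
  /-- the projective K3 surfaces -/
  Obj : Type u
  /-- there is a Hodge isometry of the rational cohomology groups in degree two -/
  Isog : Obj → Obj → Prop
  /-- the positive integers `d` such that `2d` is the square of a class in `NS(X) ⊗ ℚ` -/
  Rep : Obj → Set ℕ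
  rep_nonempty : ∀ X, (Rep X).Nonempty
  rep_pos : ∀ X d, d ∈ Rep X → 0 < d
  /-- divide the class by `s` -/
  rep_square : ∀ X d s, 0 < s → s ^ 2 * d ∈ Rep X → d ∈ Rep X
  rep_isog : ∀ X Y, Isog X Y → Rep X = Rep Y
  /-- `X` has a primitive nef class of square `2d` -/
  Deg : Obj → ℕ → Prop
  /-- surjectivity of the period map -/
  exists_isog : ∀ X d, d ∈ Rep X → ∃ Y, Isog X Y ∧ Deg Y d

variable (T : Surfaces.{u})

/-- `X` has minimal degree `2d`: it has a primitive nef class of square `2d`, and no class of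
`NS(X) ⊗ ℚ` has square `2e` for an integer `0 < e < d`. -/
def MinimalDegree (X : T.Obj) (d : ℕ) : Prop := T.Deg X d ∧ IsLeast (T.Rep X) d

theorem MinimalDegree.squarefree {X : T.Obj} {d : ℕ} (h : MinimalDegree T X d) : Squarefree d := by
  have hd := T.rep_pos X d h.2.1
  obtain ⟨d₀, s, hs, hsq⟩ := Nat.sq_mul_squarefree d
  have hs0 : 0 < s := by
    rcases Nat.eq_zero_or_pos s with h0 | h0
    · rw [h0] at hs
      simp at hs
      omega
    · exact h0
  have h1 : d₀ ∈ T.Rep X := T.rep_square X d₀ s hs0 (by rw [hs]; exact h.2.1)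
  have h2 : d ≤ d₀ := h.2.2 h1
  have h3 : d₀ ≤ d := by
    rw [← hs]
    exact Nat.le_mul_of_pos_left _ (by positivity)
  rw [le_antisymm h2 h3]
  exact hsq

/-- A property invariant under isogeny holds for all K3 surfaces if and only if it holds for those of
minimal degree. -/
theorem minimalDegree_suffices (P : T.Obj → Prop) (hP : ∀ X Y, T.Isog X Y → (P X ↔ P Y)) :
    (∀ X, P X) ↔ ∀ X d, MinimalDegree T X d → P X := by
  classical
  refine ⟨fun h X _ _ => h X, fun h X => ?_⟩
  have hleast : IsLeast (T.Rep X) (sInf (T.Rep X)) :=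
    ⟨Nat.sInf_mem (T.rep_nonempty X), fun e he => Nat.sInf_le he⟩
  obtain ⟨Y, hi, hdeg⟩ := T.exists_isog X _ hleast.1
  refine (hP X Y hi).2 (h Y _ ⟨hdeg, ?_⟩)
  rw [← T.rep_isog X Y hi]
  exact hleast

end Pool.Agent.TH116.K3
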